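import Mathlib
import Pool.Agent.H2.PolzDefs
import Pool.Agent.H2.PolzProof

namespace Pool.Agent.Results.MP_55095a_co.NotHPositive

open Finset MvPolynomial
open Pool.Agent.H2.Polz


/-- f is diagonally symmetric and homogeneous of multidegree (2,1), and the Hilbert series of its
polarization module is not h-positive. -/
theorem result : (∀ σ, act σ f = f) ∧
    f ∈ piece 2 2 (Finsupp.single 0 2 + Finsupp.single 1 1) ∧ f ≠ 0 ∧ ¬ HPositive f 3 := by
  refine ⟨act_f, f_w, f_ne, ?_⟩
  rintro ⟨a, ha⟩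
  have h1 := ha (Finsupp.single 0 3)
  have h2 := ha (Finsupp.single 0 2 + Finsupp.single 1 1)
  have h3 := mid_pos
  rw [top_zero, finrank_bot, eq_comm, coeff_sum, sum_eq_zero_iff] at h1
  have h4 := h1 3 (by simp)
  rw [coeff_sum, sum_eq_zero_iff] at h4
  rw [h2, coeff_sum] at h3
  refine h3.ne' (sum_eq_zero fun k hk => ?_)
  rw [coeff_sum]
  refine sum_eq_zero fun μ _ => ?_
  rw [coeff_smul, smul_eq_mul, mul_eq_zero]
  by_cases h : k = 3
  · subst h
    have h5 := h4 μ (mem_univ _)
    have h6 := prod_pos μ.parts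
    rw [μ.parts_sum] at h6
    rw [coeff_smul, smul_eq_mul, mul_eq_zero] at h5
    exact Or.inl (h5.resolve_right h6.ne')
  · right
    refine (prod_h μ.parts).coeff_eq_zero ?_
    rw [μ.parts_sum]
    simpa [Finsupp.degree_eq_sum, Fin.sum_univ_two] using Ne.symm h

end Pool.Agent.Results.MP_55095a_co.NotHPositive
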